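import Pool.Agent.H57Z.Galvin

namespace Pool.Agent.Results.MP_52157e_lc.ANonGalvinInZFC

open Cardinal

universe u

/-- The Galvin property of a filter `F` over `κ` (the set of ordinals below `κ`, well-ordered):
every sequence of `κ⁺` members of `F` has a subfamily of size `κ` whose intersection is in `F`. -/
def IsGalvin (κ : Cardinal.{u}) (F : Filter κ.ord.ToType) : Prop :=
  ∀ A : (Order.succ κ).ord.ToType → Set κ.ord.ToType, (∀ i, A i ∈ F) →
    ∃ I : Set (Order.succ κ).ord.ToType, #I = κ ∧ (⋂ i ∈ I, A i) ∈ F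

/-- Every regular uncountable cardinal `κ` carries a proper `κ`-complete filter that contains
every club subset of `κ` and is not Galvin. -/
theorem result (κ : Cardinal.{u}) (hreg : κ.IsRegular) (hunc : ℵ₀ < κ) :
    ∃ F : Filter κ.ord.ToType, F ≠ ⊥ ∧
      (∀ T : Set (Set κ.ord.ToType), #T < κ → (∀ A ∈ T, A ∈ F) → ⋂₀ T ∈ F) ∧
      (∀ C : Set κ.ord.ToType, IsClub C → C ∈ F) ∧ ¬ IsGalvin κ F := by
  obtain ⟨F, h1, h2, h3, A, hA, hI⟩ := Pool.Agent.H57Z.Galvin.main_cardinal κ hreg hunc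
  refine ⟨F, h1.ne, fun T hT hTF => (cardinal_sInter_mem hT).2 hTF, h3, fun hG => ?_⟩
  obtain ⟨I, hIc, hIF⟩ := hG A hA
  exact hI I hIc hIF

end Pool.Agent.Results.MP_52157e_lc.ANonGalvinInZFC
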